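import Pool.Agent.Q149.ESM.VX

/-!
# Project ESM (helper161), job ZEX: primes in extensions, general lemmas
-/

set_option autoImplicit false
set_option linter.style.haveILetI false
set_option linter.unusedSectionVars false
set_option linter.unusedVariables false

namespace Pool.Agent.Q149.ESM

open Polynomial NumberField IsDedekindDomain Finset
open Pool.Agent.Q51.EL (pr Abv N1 Par Setup)
open Pool.Agent.Q161.ESM

section

variable {M K : Type} [Field M] [NumberField M] [Field K] [NumberField K] (em : M →+* K)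

/-- the prime `v` lies below `w` via `em` -/
def Blw (v : HeightOneSpectrum (𝓞 M)) (w : HeightOneSpectrum (𝓞 K)) : Prop :=
  ∀ x : 𝓞 M, x ∈ v.asIdeal ↔ RingOfIntegers.mapRingHom em x ∈ w.asIdeal

theorem blw_eq {v : HeightOneSpectrum (𝓞 M)} {w : HeightOneSpectrum (𝓞 K)} (h : Blw em v w) :
    v.asIdeal = w.asIdeal.comap (RingOfIntegers.mapRingHom em) := by
  ext x
  rw [Ideal.mem_comap]
  exact h x

theorem blw_unique {v v' : HeightOneSpectrum (𝓞 M)} {w : HeightOneSpectrum (𝓞 K)}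
    (h : Blw em v w) (h' : Blw em v' w) : v = v' := by
  apply HeightOneSpectrum.ext
  rw [blw_eq em h, blw_eq em h']

/-- existence of the prime below -/
theorem exists_blw (w : HeightOneSpectrum (𝓞 K)) (l : ℕ) (hl : l ≠ 0) (hw : Abv w l) :
    ∃ v : HeightOneSpectrum (𝓞 M), Blw em v w := by
  refine ⟨⟨w.asIdeal.comap (RingOfIntegers.mapRingHom em), Ideal.comap_isPrime _ _, ?_⟩, fun x => ?_⟩
  · intro h
    have h1 : (l : 𝓞 M) ∈ w.asIdeal.comap (RingOfIntegers.mapRingHom em) := by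
      rw [Ideal.mem_comap, map_natCast]
      exact hw
    rw [h, Ideal.mem_bot] at h1
    exact hl (by exact_mod_cast h1)
  · rw [Ideal.mem_comap]

/-- valuations of the primes above an unramified prime number -/
theorem val_blw {l : ℕ} (hl : l ≠ 0) (hsq : Squarefree (Ideal.span {(l : 𝓞 K)}))
    {w : HeightOneSpectrum (𝓞 K)} (hw : Abv w l) {v : HeightOneSpectrum (𝓞 M)} (h : Blw em v w)
    (y : M) : w.valuation K (em y) = v.valuation M y := by
  letI : Algebra M K := em.toAlgebra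
  haveI : w.asIdeal.LiesOver v.asIdeal := ⟨by
    rw [blw_eq em h]
    rfl⟩
  have hv : (l : 𝓞 M) ∈ v.asIdeal := by
    rw [h, map_natCast]
    exact hw
  have he0 : v.asIdeal.ramificationIdx' w.asIdeal ≠ 0 :=
    Ideal.IsDedekindDomain.ramificationIdx'_ne_zero_of_liesOver w.asIdeal v.ne_bot
  have he1 : v.asIdeal.ramificationIdx' w.asIdeal = 1 := by
    by_contra hne
    have h2 : 2 ≤ v.asIdeal.ramificationIdx' w.asIdeal := by omega
    have h3 := Ideal.le_pow_of_le_ramificationIdx' (p := v.asIdeal) (P := w.asIdeal) h2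
    have h4 : (l : 𝓞 K) ∈ w.asIdeal ^ 2 := by
      apply h3
      have := Ideal.mem_map_of_mem (algebraMap (𝓞 M) (𝓞 K)) hv
      rwa [map_natCast] at this
    have h5 : w.asIdeal * w.asIdeal ∣ Ideal.span {(l : 𝓞 K)} := by
      rw [← sq, Ideal.dvd_span_singleton]
      exact h4
    have h6 := hsq _ h5
    exact w.prime.not_isUnit h6
  have h7 := HeightOneSpectrum.valuation_liesOver (K := M) K v w y
  rw [he1, pow_one] at h7
  exact h7.symm

/-- the Galois group acts transitively on the primes above a given one -/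
theorem trans_over [IsGalois ℚ K] (w w' : HeightOneSpectrum (𝓞 K))
    (h : ∀ x : 𝓞 M, RingOfIntegers.mapRingHom em x ∈ w.asIdeal ↔
      RingOfIntegers.mapRingHom em x ∈ w'.asIdeal) :
    ∃ g : K ≃ₐ[ℚ] K, (∀ y : M, g (em y) = em y) ∧ Mv g w w' := by
  letI : Algebra M K := em.toAlgebra
  haveI : IsScalarTower ℚ M K := IsScalarTower.of_algebraMap_eq' (Subsingleton.elim _ _)
  haveI : IsGalois M K := IsGalois.tower_top_of_isGalois ℚ M K
  haveI : FiniteDimensional M K := FiniteDimensional.right ℚ M K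
  obtain ⟨σ, hσ⟩ := Ideal.exists_comap_galRestrict_eq (𝓞 M) M K (𝓞 K)
    (p := w.asIdeal.under (𝓞 M)) (P₁ := w'.asIdeal) (P₂ := w.asIdeal)
    ⟨w'.isPrime, ⟨by
      ext x
      exact h x⟩⟩ ⟨w.isPrime, ⟨rfl⟩⟩
  refine ⟨σ.restrictScalars ℚ, fun y => σ.commutes y, ?_⟩
  intro x y hxy
  rw [← hσ, Ideal.mem_comap]
  have h1 : galRestrict (𝓞 M) M K (𝓞 K) σ x = y := by
    apply RingOfIntegers.ext
    rw [hxy]
    exact algebraMap_galRestrict_apply (𝓞 M) σ x
  rw [h1]

end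

section

variable {K : Type} [Field K] [NumberField K]

theorem nat_mem {w : HeightOneSpectrum (𝓞 K)} {l : ℕ} (hl : l.Prime) (hw : Abv w l) (n : ℤ) :
    (n : 𝓞 K) ∈ w.asIdeal ↔ (l : ℤ) ∣ n := by
  constructor
  · intro h
    by_contra hn
    have hc : IsCoprime (l : ℤ) n := (Nat.prime_iff_prime_int.1 hl).irreducible.coprime_iff_not_dvd.2 hn
    obtain ⟨a, b, hab⟩ := hc
    have h1 : ((a : 𝓞 K) * (l : 𝓞 K) + b * n) = 1 := by
      exact_mod_cast congrArg (Int.cast : ℤ → 𝓞 K) hab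
    apply w.isPrime.ne_top
    rw [Ideal.eq_top_iff_one, ← h1]
    exact Ideal.add_mem _ (Ideal.mul_mem_left _ _ hw) (Ideal.mul_mem_left _ _ h)
  · rintro ⟨c, rfl⟩
    push_cast
    exact Ideal.mul_mem_right _ _ hw

theorem trans_nat [IsGalois ℚ K] {l : ℕ} (hl : l.Prime) {w w' : HeightOneSpectrum (𝓞 K)} (hw : Abv w l)
    (hw' : Abv w' l) : ∃ g : K ≃ₐ[ℚ] K, Mv g w w' := by
  obtain ⟨g, -, hg⟩ := trans_over (algebraMap ℚ K) w w' (fun x => by
    obtain ⟨n, hn⟩ : ∃ n : ℤ, (n : 𝓞 ℚ) = x := ⟨Rat.ringOfIntegersEquiv x, by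
      apply Rat.ringOfIntegersEquiv.injective
      rw [map_intCast]
      rfl⟩
    rw [← hn, map_intCast, nat_mem hl hw, nat_mem hl hw'])
  exact ⟨g, hg⟩

theorem mv_iff_blw (g : K ≃ₐ[ℚ] K) (w w' : HeightOneSpectrum (𝓞 K)) :
    Mv g w w' ↔ Blw g.toAlgHom.toRingHom w w' := by
  constructor
  · intro h x
    exact h x _ rfl
  · intro h x y hxy
    rw [h x]
    have : RingOfIntegers.mapRingHom g.toAlgHom.toRingHom x = y := by
      apply RingOfIntegers.ext
      rw [hxy]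
      rfl
    rw [this]

theorem val_mv {l : ℕ} (hl : l ≠ 0) (hsq : Squarefree (Ideal.span {(l : 𝓞 K)}))
    {w w' : HeightOneSpectrum (𝓞 K)} (hw' : Abv w' l) (g : K ≃ₐ[ℚ] K) (h : Mv g w w') (y : K) :
    w'.valuation K (g y) = w.valuation K y :=
  val_blw g.toAlgHom.toRingHom hl hsq hw' ((mv_iff_blw g w w').1 h) y

theorem exists_mv {l : ℕ} (hl : l ≠ 0) {w' : HeightOneSpectrum (𝓞 K)} (hw' : Abv w' l)
    (g : K ≃ₐ[ℚ] K) : ∃ w : HeightOneSpectrum (𝓞 K), Mv g w w' := by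
  obtain ⟨w, hw⟩ := exists_blw g.toAlgHom.toRingHom w' l hl hw'
  exact ⟨w, (mv_iff_blw g w w').2 hw⟩

theorem abv_mv {l : ℕ} {w w' : HeightOneSpectrum (𝓞 K)} {g : K ≃ₐ[ℚ] K} (h : Mv g w w') :
    Abv w l ↔ Abv w' l := by
  refine h (l : 𝓞 K) (l : 𝓞 K) ?_
  simp

theorem mv_inv {w w' : HeightOneSpectrum (𝓞 K)} {g : K ≃ₐ[ℚ] K} (h : Mv g w w') : Mv g⁻¹ w' w := by
  intro x y hxy
  refine (h y x ?_).symm
  rw [hxy]
  exact (g.apply_symm_apply (x : K)).symm

theorem mv_mul {w w' w'' : HeightOneSpectrum (𝓞 K)} {g h : K ≃ₐ[ℚ] K} (hg : Mv g w w')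
    (hh : Mv h w' w'') : Mv (h * g) w w'' := by
  intro x z hxz
  rw [hg x (RingOfIntegers.mapRingHom g.toAlgHom.toRingHom x) rfl]
  exact hh _ _ hxz

theorem fb_mv {w : HeightOneSpectrum (𝓞 K)} {l : ℕ} (hl : l ≠ 0) {F : K ≃ₐ[ℚ] K} (hF : Fb w l F) :
    Mv F w w := by
  intro x y hxy
  have h := hF x y hxy
  constructor
  · intro hx
    have h1 : x ^ l ∈ w.asIdeal := Ideal.pow_mem_of_mem _ hx l (Nat.pos_of_ne_zero hl)
    have := Ideal.add_mem _ h h1
    rwa [sub_add_cancel] at this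
  · intro hy
    have h1 : x ^ l ∈ w.asIdeal := by
      have := Ideal.sub_mem _ hy h
      rwa [sub_sub_cancel] at this
    exact w.isPrime.mem_of_pow_mem l h1

/-- a prime whose residue field is the prime field -/
theorem absNorm_eq {l : ℕ} (hl : l.Prime) {v : HeightOneSpectrum (𝓞 K)} (hv : Abv v l)
    (h : ∀ x : 𝓞 K, x - x ^ l ∈ v.asIdeal) : Ideal.absNorm v.asIdeal = l := by
  classical
  haveI : v.asIdeal.IsMaximal := v.isMaximal
  letI : Field (𝓞 K ⧸ v.asIdeal) := Ideal.Quotient.field v.asIdeal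
  haveI : Finite (𝓞 K ⧸ v.asIdeal) := Ideal.finiteQuotientOfFreeOfNeBot v.asIdeal v.ne_bot
  letI : Fintype (𝓞 K ⧸ v.asIdeal) := Fintype.ofFinite _
  have hl0 : (l : 𝓞 K ⧸ v.asIdeal) = 0 := by
    have : Ideal.Quotient.mk v.asIdeal (l : 𝓞 K) = 0 := Ideal.Quotient.eq_zero_iff_mem.2 hv
    rwa [map_natCast] at this
  haveI : CharP (𝓞 K ⧸ v.asIdeal) l := by
    obtain ⟨p, hp⟩ := CharP.exists (𝓞 K ⧸ v.asIdeal)
    have h1 : p ∣ l := (CharP.cast_eq_zero_iff _ p l).1 hl0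
    rcases (Nat.dvd_prime hl).1 h1 with h2 | h2
    · exact absurd h2 (CharP.char_ne_one (𝓞 K ⧸ v.asIdeal) p)
    · rw [← h2]
      exact hp
  obtain ⟨n, -, hn⟩ := FiniteField.card (𝓞 K ⧸ v.asIdeal) l
  have h2 : Fintype.card (𝓞 K ⧸ v.asIdeal) ≤ l := by
    have h3 : ((Finset.univ : Finset (𝓞 K ⧸ v.asIdeal)).val ⊆
        (X ^ l - X : (𝓞 K ⧸ v.asIdeal)[X]).roots) := by
      intro x _
      rw [Polynomial.mem_roots (FiniteField.X_pow_card_sub_X_ne_zero _ hl.one_lt)]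
      obtain ⟨y, rfl⟩ := Ideal.Quotient.mk_surjective x
      rw [Polynomial.IsRoot, Polynomial.eval_sub, Polynomial.eval_pow, Polynomial.eval_X, ← map_pow,
        ← map_sub, Ideal.Quotient.eq_zero_iff_mem]
      have := h y
      rw [← neg_mem_iff, neg_sub] at this
      exact this
    have h4 := Polynomial.card_le_degree_of_subset_roots h3
    rw [FiniteField.X_pow_card_sub_X_natDegree_eq _ hl.one_lt] at h4
    rwa [Finset.card_univ] at h4
  have h5 : Fintype.card (𝓞 K ⧸ v.asIdeal) = l := by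
    apply le_antisymm h2
    rw [hn]
    exact Nat.le_self_pow n.ne_zero l
  rw [Ideal.absNorm_apply, Submodule.cardQuot_apply, Nat.card_eq_fintype_card]
  exact h5

theorem finite_abv {l : ℕ} (hl : l ≠ 0) : {v : HeightOneSpectrum (𝓞 K) | Abv v l}.Finite := by
  have h1 : (Ideal.span {(l : 𝓞 K)}) ≠ 0 := by
    rw [Ne, Ideal.zero_eq_bot, Ideal.span_singleton_eq_bot]
    exact_mod_cast hl
  refine (Ideal.finite_factors h1).subset fun v hv => ?_
  show v.asIdeal ∣ Ideal.span {(l : 𝓞 K)}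
  rw [Ideal.dvd_span_singleton]
  exact hv

end

end Pool.Agent.Q149.ESM
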