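import Pool.Agent.Q161.ESM.Stm3

/-!
# Project ESM (helper161), job KX: the field K
-/

set_option autoImplicit false

namespace Pool.Agent.Q149.ESM

open Polynomial NumberField IsDedekindDomain
open Pool.Agent.Q51.EL (pr Abv N1 Par Setup)
open Pool.Agent.Q161.ESM

theorem exists_split (k : Type) [Field k] [CharZero k] (f : k[X]) :
    ∃ (K : Type) (_ : Field K) (_ : Algebra k K), FiniteDimensional k K ∧
      IsGalois k K ∧ (f.map (algebraMap k K)).Splits := by
  refine ⟨f.SplittingField, inferInstance, inferInstance, inferInstance, ?_, SplittingField.splits _⟩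
  have : Normal k f.SplittingField := Normal.of_isSplittingField f
  exact IsGalois.mk

theorem exists_field {J : Type} [Fintype J] (f : J → ℚ[X]) (hf : ∀ j, f j ≠ 0) :
    ∃ (K : Type) (_ : Field K) (_ : NumberField K), IsGalois ℚ K ∧ ∀ j, ((f j).map (algebraMap ℚ K)).Splits := by
  classical
  obtain ⟨K, i1, i2, i3, i4, i5⟩ := exists_split ℚ (∏ j, f j)
  have hc : CharZero K := algebraRat.charZero K
  have h : i2 = DivisionRing.toRatAlgebra := Subsingleton.elim _ _
  subst h
  refine ⟨K, i1, @NumberField.mk K i1 hc i3, i4, fun j => ?_⟩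
  refine i5.of_dvd ?_ ?_
  · rw [Polynomial.map_ne_zero_iff (algebraMap ℚ K).injective]
    exact Finset.prod_ne_zero_iff.2 fun j _ => hf j
  · exact Polynomial.map_dvd _ (Finset.dvd_prod_of_mem f (Finset.mem_univ j))

theorem card_emb {L K : Type} [Field L] [NumberField L] [Field K] [NumberField K] [IsGalois ℚ K]
    (f : ℚ[X]) (hm : f.Monic) (hi : Irreducible f) (θ : L) (h0 : aeval θ f = 0)
    (hd : Module.finrank ℚ L = f.natDegree) (hs : (f.map (algebraMap ℚ K)).Splits) :
    Nat.card (L →+* K) = Module.finrank ℚ L := by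
  have h1 : f = minpoly ℚ θ := minpoly.eq_of_irreducible_of_monic hi h0 hm
  have h2 : IntermediateField.adjoin ℚ {θ} = ⊤ := by
    rw [Field.primitive_element_iff_minpoly_natDegree_eq, ← h1, hd]
  have h3 : Nonempty (L →ₐ[ℚ] K) := by
    refine IntermediateField.nonempty_algHom_of_adjoin_splits (S := {θ}) ?_ h2
    intro s hs'
    rw [Set.mem_singleton_iff] at hs'
    subst hs'
    exact ⟨IsIntegral.of_finite ℚ s, by rw [← h1]; exact hs⟩
  obtain ⟨φ⟩ := h3
  have h4 := AlgHom.natCard_of_splits ℚ L K (fun x => by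
    rw [← minpoly.algHom_eq φ φ.toRingHom.injective x]
    exact Normal.splits inferInstance (φ x))
  rw [← h4]
  exact Nat.card_congr (RingHom.equivRatAlgHom L K)

/-- job KX -/
theorem kx : S_KX := by
  intro J _ f L _ _ tt h1 h2 h3
  have hmon : ∀ j, ((f j).map (Int.castRingHom ℚ)).Monic := fun j => Polynomial.Monic.map _ (h1 j)
  obtain ⟨K, i1, i2, i3, i4⟩ := exists_field (fun j => (f j).map (Int.castRingHom ℚ))
    (fun j => (hmon j).ne_zero)
  have hdeg : ∀ j, ((f j).map (Int.castRingHom ℚ)).natDegree = 3 := by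
    intro j
    rw [Polynomial.natDegree_map_eq_of_injective (Int.castRingHom ℚ).injective_int, h2]
  have hc : ∀ j, Nat.card (L j →+* K) = 3 := by
    intro j
    rw [card_emb ((f j).map (Int.castRingHom ℚ)) (hmon j) (h3 j).irr (tt j : L j) ?_ ?_ (i4 j),
      (h3 j).deg, h2]
    · have h := (h3 j).root
      rw [Polynomial.aeval_def, Polynomial.eval₂_map]
      rw [Polynomial.aeval_def] at h
      rw [← h]
      congr 1
      exact Subsingleton.elim _ _
    · rw [(h3 j).deg, h2, hdeg]
  have he : ∀ j, Nonempty (Fin 3 ≃ (L j →+* K)) := by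
    intro j
    have : Finite (L j →+* K) := Nat.finite_of_card_ne_zero (by rw [hc j]; norm_num)
    exact ⟨(Finite.equivFinOfCardEq (hc j)).symm⟩
  refine ⟨K, i1, i2, fun j => (he j).some, i3, ⟨h1, h2, h3, fun j => (he j).some.bijective⟩⟩

end Pool.Agent.Q149.ESM
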