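import Pool.Agent.Q161.ESM.Stm3

/-!
# Project ESM (helper161), job VX: the module V
-/

set_option autoImplicit false
set_option linter.unusedSectionVars false
set_option linter.style.haveILetI false

namespace Pool.Agent.Q149.ESM

open Polynomial NumberField IsDedekindDomain Finset
open Pool.Agent.Q51.EL (pr Abv N1 Par Setup)
open Pool.Agent.Q161.ESM

section abs

variable {J : Type} {G : Type} [Group G] (pm : G → J → Fin 3 → Fin 3)

/-- the group `V` -/
def VG (J : Type) : AddSubgroup (J → Fin 3 → ZMod 2) where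
  carrier := {e | ∀ j, ∑ k, e j k = 0}
  add_mem' := by
    intro a b ha hb j
    simp only [Pi.add_apply]
    rw [Finset.sum_add_distrib, ha j, hb j, add_zero]
  zero_mem' := fun j => by simp
  neg_mem' := by
    intro a ha j
    simp only [Pi.neg_apply]
    rw [Finset.sum_neg_distrib, ha j, neg_zero]

variable (h1 : ∀ j k, pm 1 j k = k) (hm : ∀ g h j k, pm (g * h) j k = pm g j (pm h j k))

include h1 hm in
theorem pm_inv (g : G) (j : J) (k : Fin 3) : pm g⁻¹ j (pm g j k) = k := by
  rw [← hm, inv_mul_cancel, h1]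

include h1 hm in
theorem pm_inv' (g : G) (j : J) (k : Fin 3) : pm g j (pm g⁻¹ j k) = k := by
  rw [← hm, mul_inv_cancel, h1]

/-- the bijection of `Fin 3` -/
def pe (g : G) (j : J) : Fin 3 ≃ Fin 3 where
  toFun := pm g j
  invFun := pm g⁻¹ j
  left_inv := pm_inv pm h1 hm g j
  right_inv := pm_inv' pm h1 hm g j

/-- the action -/
@[reducible] def act : DistribMulAction G (VG J) where
  smul g e := ⟨fun j k => e.1 j (pm g⁻¹ j k), fun j =>
    ((pe pm h1 hm g⁻¹ j).sum_comp (fun k => e.1 j k)).trans (e.2 j)⟩
  one_smul e := by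
    apply Subtype.ext
    funext j k
    show e.1 j (pm 1⁻¹ j k) = e.1 j k
    rw [inv_one, h1]
  mul_smul g h e := by
    apply Subtype.ext
    funext j k
    show e.1 j (pm (g * h)⁻¹ j k) = e.1 j (pm h⁻¹ j (pm g⁻¹ j k))
    rw [mul_inv_rev, hm]
  smul_zero g := by
    apply Subtype.ext
    funext j k
    rfl
  smul_add g a b := by
    apply Subtype.ext
    funext j k
    rfl

theorem points : ∀ a : Fin 3 → ZMod 2, ∑ k, a k = 0 → a ≠ 0 →
    ∃ k, a k = 0 ∧ ∀ k', k' ≠ k → a k' = 1 := by
  decide

theorem smul_val (g : G) (e : VG J) (j : J) (k : Fin 3) :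
    (letI := act pm h1 hm; (g • e : VG J)).1 j k = e.1 j (pm g⁻¹ j k) := rfl

theorem smul_val' (g : G) (e : VG J) (j : J) (k : Fin 3) :
    (letI := act pm h1 hm; (g • e : VG J)).1 j (pm g j k) = e.1 j k := by
  rw [smul_val, pm_inv pm h1 hm]

variable (ht : ∀ j k k', ∃ g : G, pm g j k = k')

include ht in
theorem no_inv (v : VG J) (hv : letI := act pm h1 hm; ∀ g : G, g • v = v) : v = 0 := by
  letI := act pm h1 hm
  apply Subtype.ext
  funext j
  by_contra hne
  obtain ⟨k, hk, hk'⟩ := points (v.1 j) (v.2 j) hne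
  obtain ⟨g, hg⟩ := ht j k (k + 1)
  have h2 := smul_val' pm h1 hm g v j k
  have h3 : (g • v : VG J) = v := hv g
  have h4 : ∀ k : Fin 3, k + 1 ≠ k := by decide
  rw [h3, hg, hk, hk' (k + 1) (h4 k)] at h2
  exact one_ne_zero h2

/-- the elements with support in `s` -/
def VJ (s : Set J) : AddSubgroup (VG J) where
  carrier := {e | ∀ j, j ∉ s → e.1 j = 0}
  add_mem' := by
    intro a b ha hb j hj
    show a.1 j + b.1 j = 0
    rw [ha j hj, hb j hj, add_zero]
  zero_mem' := fun j _ => rfl
  neg_mem' := by
    intro a ha j hj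
    show - a.1 j = 0
    rw [ha j hj, neg_zero]

open Classical in
/-- the component at `j` -/
noncomputable def comp (v : VG J) (j : J) : VG J :=
  ⟨fun j' => if j' = j then v.1 j' else 0, fun j' => by
    by_cases h : j' = j
    · simp only [h, if_true]
      exact v.2 j
    · simp [h]⟩

theorem comp_same (v : VG J) (j : J) : (comp v j).1 j = v.1 j := by
  unfold comp
  simp

theorem comp_ne (v : VG J) {j j' : J} (h : j' ≠ j) : (comp v j).1 j' = 0 := by
  unfold comp
  simp [h]

theorem sum_val {ι : Type} (s : Finset ι) (F : ι → VG J) (j : J) :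
    (∑ i ∈ s, F i).1 j = ∑ i ∈ s, (F i).1 j := by
  classical
  induction s using Finset.induction_on with
  | empty => rfl
  | insert a s ha ih =>
    rw [Finset.sum_insert ha, Finset.sum_insert ha, ← ih]
    rfl

theorem sum_comp [Fintype J] (v : VG J) : ∑ j, comp v j = v := by
  classical
  apply Subtype.ext
  funext j
  rw [sum_val, Finset.sum_eq_single j]
  · exact comp_same v j
  · intro b _ hb
    exact comp_ne v (Ne.symm hb)
  · intro h
    exact absurd (Finset.mem_univ j) h

include ht in
theorem semi [Fintype J] : letI := act pm h1 hm; Semi G (VG J) := by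
  classical
  letI := act pm h1 hm
  intro W hW
  -- a maximal set
  obtain ⟨J', hJ', hmax⟩ := Finset.exists_max_image
    ((Finset.univ : Finset (Finset J)).filter fun s : Finset J => W ⊓ VJ (s : Set J) = ⊥) Finset.card
    ⟨∅, by
      rw [Finset.mem_filter]
      refine ⟨Finset.mem_univ _, ?_⟩
      rw [eq_bot_iff]
      intro x hx
      rw [AddSubgroup.mem_bot]
      apply Subtype.ext
      funext j
      exact hx.2 j (by simp)⟩
  rw [Finset.mem_filter] at hJ'
  have hst : GSt G (VJ (J' : Set J)) := by
    intro g v hv j hj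
    funext k
    rw [smul_val, hv j hj]
    rfl
  refine ⟨VJ (J' : Set J), hst, ?_⟩
  rw [isCompl_iff]
  refine ⟨disjoint_iff.2 hJ'.2, codisjoint_iff.2 ?_⟩
  have hUst : ∀ (g : G) (v : VG J), v ∈ W ⊔ VJ (J' : Set J) → g • v ∈ W ⊔ VJ (J' : Set J) := by
    intro g v hv
    obtain ⟨a, ha, b, hb, rfl⟩ := AddSubgroup.mem_sup.1 hv
    rw [smul_add]
    exact AddSubgroup.add_mem_sup (hW g a ha) (hst g b hb)
  have hcomp : ∀ (v : VG J) (j : J), comp v j ∈ W ⊔ VJ (J' : Set J) := by
    intro v j
    by_cases hj : j ∈ J'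
    · refine (le_sup_right : VJ (J' : Set J) ≤ W ⊔ VJ (J' : Set J)) ?_
      intro j' hj'
      exact comp_ne v (fun h => hj' (by rw [h]; exact hj))
    · -- a nonzero element of `V_j`
      have h2 : W ⊓ VJ ((insert j J' : Finset J) : Set J) ≠ ⊥ := by
        intro h
        have h3 := hmax (insert j J') (by
          rw [Finset.mem_filter]
          exact ⟨Finset.mem_univ _, h⟩)
        rw [Finset.card_insert_of_notMem hj] at h3
        omega
      obtain ⟨w, hw, hw0⟩ : ∃ w : VG J, w ∈ W ⊓ VJ ((insert j J' : Finset J) : Set J) ∧ w ≠ 0 := by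
        obtain ⟨x, hx⟩ := AddSubgroup.ne_bot_iff_exists_ne_zero.1 h2
        exact ⟨x.1, x.2, fun h => hx (Subtype.ext h)⟩
      have hw1 : w - comp w j ∈ VJ (J' : Set J) := by
        intro j' hj'
        show w.1 j' - (comp w j).1 j' = 0
        by_cases h : j' = j
        · subst h
          rw [comp_same, sub_self]
        · rw [comp_ne w h, sub_zero]
          refine hw.2 j' ?_
          rw [Finset.mem_coe, Finset.mem_insert]
          rintro (h' | h')
          · exact h h'
          · exact hj' h'
      have hw2 : comp w j ∈ W ⊔ VJ (J' : Set J) := by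
        have : comp w j = w + (-(w - comp w j)) := by abel
        rw [this]
        exact AddSubgroup.add_mem_sup hw.1 (neg_mem hw1)
      have hw3 : w.1 j ≠ 0 := by
        intro h
        apply hw0
        have h4 : comp w j = 0 := by
          apply Subtype.ext
          funext j'
          by_cases h' : j' = j
          · subst h'
            rw [comp_same, h]
            rfl
          · rw [comp_ne w h']
            rfl
        rw [h4, sub_zero] at hw1
        have h5 : w ∈ W ⊓ VJ (J' : Set J) := ⟨hw.1, hw1⟩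
        rw [hJ'.2, AddSubgroup.mem_bot] at h5
        exact h5
      by_cases hv : v.1 j = 0
      · have h4 : comp v j = 0 := by
          apply Subtype.ext
          funext j'
          by_cases h' : j' = j
          · subst h'
            rw [comp_same, hv]
            rfl
          · rw [comp_ne v h']
            rfl
        rw [h4]
        exact zero_mem _
      · obtain ⟨k, hk, hk'⟩ := points (w.1 j) (w.2 j) hw3
        obtain ⟨l, hl, hl'⟩ := points (v.1 j) (v.2 j) hv
        obtain ⟨g, hg⟩ := ht j k l
        have h4 : comp v j = g • comp w j := by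
          apply Subtype.ext
          funext j'
          by_cases h' : j' = j
          · subst h'
            rw [comp_same]
            funext k'
            rw [smul_val, comp_same]
            by_cases hkl : k' = l
            · rw [hkl, hl, ← hg, pm_inv pm h1 hm, hk]
            · rw [hl' k' hkl, hk']
              intro h
              apply hkl
              rw [← hg, ← h, pm_inv' pm h1 hm]
          · rw [comp_ne v h']
            funext k'
            rw [smul_val, comp_ne w h']
            rfl
        rw [h4]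
        exact hUst g _ hw2
  rw [eq_top_iff]
  intro v _
  rw [← sum_comp v]
  exact sum_mem fun j _ => hcomp v j

end abs

section

variable {J : Type} {K : Type} [Field K] [NumberField K] [IsGalois ℚ K] {L : J → Type}
  [∀ j, Field (L j)] [∀ j, NumberField (L j)] (io : (j : J) → Fin 3 → (L j →+* K))
  (hb : ∀ j, Function.Bijective (io j))

/-- the permutations -/
noncomputable def pmf (g : K ≃ₐ[ℚ] K) (j : J) (k : Fin 3) : Fin 3 :=
  (Equiv.ofBijective (io j) (hb j)).symm (g.toAlgHom.toRingHom.comp (io j k))

theorem pmf_spec (g : K ≃ₐ[ℚ] K) (j : J) (k : Fin 3) :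
    io j (pmf io hb g j k) = g.toAlgHom.toRingHom.comp (io j k) :=
  (Equiv.ofBijective (io j) (hb j)).apply_symm_apply _

theorem pmf_one (j : J) (k : Fin 3) : pmf io hb 1 j k = k := by
  apply (hb j).1
  rw [pmf_spec io hb]
  exact RingHom.ext fun x => rfl

theorem pmf_mul (g h : K ≃ₐ[ℚ] K) (j : J) (k : Fin 3) :
    pmf io hb (g * h) j k = pmf io hb g j (pmf io hb h j k) := by
  apply (hb j).1
  rw [pmf_spec io hb, pmf_spec io hb, pmf_spec io hb]
  exact RingHom.ext fun x => rfl

theorem exists_aut {M : Type} [Field M] [NumberField M] (σ τ : M →+* K) :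
    ∃ g : K ≃ₐ[ℚ] K, ∀ x, g (σ x) = τ x := by
  let σ' : M →ₐ[ℚ] K := σ.toRatAlgHom
  let τ' : M →ₐ[ℚ] K := τ.toRatAlgHom
  let e1 : M ≃ₐ[ℚ] σ'.fieldRange := AlgEquiv.ofInjectiveField σ'
  let e2 : M ≃ₐ[ℚ] τ'.fieldRange := AlgEquiv.ofInjectiveField τ'
  refine ⟨(e1.symm.trans e2).liftNormal K, fun x => ?_⟩
  have h := AlgEquiv.liftNormal_commutes (e1.symm.trans e2) K (e1 x)
  rw [AlgEquiv.trans_apply, AlgEquiv.symm_apply_apply] at h
  exact h

theorem pmf_trans (j : J) (k k' : Fin 3) : ∃ g : K ≃ₐ[ℚ] K, pmf io hb g j k = k' := by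
  obtain ⟨g, hg⟩ := exists_aut (io j k) (io j k')
  refine ⟨g, (hb j).1 ?_⟩
  rw [pmf_spec io hb]
  exact RingHom.ext fun x => hg x

end

/-- job VX -/
theorem vx : S_VX := by
  classical
  intro J _ f L _ _ K _ _ _ tt io hF
  have hb := hF.bij
  letI := act (pmf io hb) (pmf_one io hb) (pmf_mul io hb)
  refine ⟨pmf io hb, VG J, inferInstance, inferInstance, inferInstance, (VG J).subtype,
    ⟨?_, ?_, ?_, ?_⟩, ?_, ?_, ?_⟩
  · intro g j k y
    rw [pmf_spec io hb]
    rfl
  · exact (VG J).subtype_injective
  · intro e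
    constructor
    · rintro ⟨t, rfl⟩
      exact t.2
    · intro h
      exact ⟨⟨e, h⟩, rfl⟩
  · intro g t j k
    exact smul_val' (pmf io hb) (pmf_one io hb) (pmf_mul io hb) g t j k
  · intro v
    apply Subtype.ext
    funext j k
    exact CharTwo.add_self_eq_zero _
  · exact semi (pmf io hb) (pmf_one io hb) (pmf_mul io hb) (pmf_trans io hb)
  · exact no_inv (pmf io hb) (pmf_one io hb) (pmf_mul io hb) (pmf_trans io hb)

end Pool.Agent.Q149.ESM
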