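import Pool.Agent.Q149.ESM.ZEXa

/-!
# Project ESM (helper161), job ZEX
-/

set_option autoImplicit false
set_option linter.style.haveILetI false
set_option linter.unusedSectionVars false
set_option linter.unusedVariables false

namespace Pool.Agent.Q149.ESM

open Polynomial NumberField IsDedekindDomain Finset
open Pool.Agent.Q51.EL (pr Abv N1 Par Setup)
open Pool.Agent.Q161.EA (Un Nice)
open Pool.Agent.Q161.ESM

section norms

variable {K : Type} [Field K] [NumberField K]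

theorem exists_int [IsGalois ℚ K] (P : 𝓞 K) (h : ∀ g : K ≃ₐ[ℚ] K, g (P : K) = P) :
    ∃ N : ℤ, P = (N : 𝓞 K) := by
  obtain ⟨q, hq⟩ := (IsGalois.mem_range_algebraMap_iff_fixed (F := ℚ) (P : K)).2 h
  have h1 : IsIntegral ℤ q := by
    have h2 : IsIntegral ℤ (algebraMap ℚ K q) := by
      rw [hq]
      exact RingOfIntegers.isIntegral_coe P
    exact (isIntegral_algebraMap_iff (algebraMap ℚ K).injective).1 h2
  obtain ⟨N, hN⟩ := IsIntegrallyClosed.isIntegral_iff.1 h1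
  refine ⟨N, ?_⟩
  apply RingOfIntegers.ext
  rw [← hq, ← hN]
  simp

theorem norm_em {M : Type} [Field M] [NumberField M] (em : M →+* K) :
    ∃ m : ℕ, m * Module.finrank ℚ M = Module.finrank ℚ K ∧
      ∀ y : M, Algebra.norm ℚ (em y) = Algebra.norm ℚ y ^ m := by
  letI : Algebra M K := em.toAlgebra
  haveI : IsScalarTower ℚ M K := IsScalarTower.of_algebraMap_eq' (Subsingleton.elim _ _)
  haveI : FiniteDimensional M K := FiniteDimensional.right ℚ M K
  refine ⟨Module.finrank M K, ?_, fun y => ?_⟩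
  · rw [mul_comm]
    exact Module.finrank_mul_finrank ℚ M K
  · have h1 : em y = algebraMap M K y := rfl
    rw [h1, ← Algebra.norm_norm (R := ℚ) (S := M), Algebra.norm_algebraMap, map_pow]

variable {V : Type} [AddCommGroup V] [DistribMulAction (K ≃ₐ[ℚ] K) V]

theorem prod_inv [IsGalois ℚ K] [Fintype V] (z : V → 𝓞 K) (hz : Eqv z) :
    ∃ N : ℤ, ∏ t, z t = (N : 𝓞 K) := by
  classical
  refine exists_int _ fun g => ?_
  have h1 : ((∏ t, z t : 𝓞 K) : K) = ∏ t, (z t : K) := map_prod (algebraMap (𝓞 K) K) _ _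
  rw [h1, map_prod]
  have h2 : ∀ t, g (z t : K) = (z (g • t) : K) := fun t => (hz g t).symm
  simp only [h2]
  exact Equiv.prod_comp (MulAction.toPerm g) (fun t => (z t : K))

variable {ι : Type} [Fintype ι] {Lf : ι → Type} [∀ i, Field (Lf i)] [∀ i, NumberField (Lf i)]
  {em : (i : ι) → Lf i →+* K} {rp : ι → V}

theorem prod_norm [IsGalois ℚ K] [Fintype V] (hRp : Rp Lf em rp)
    (hfin : ∀ i, Module.finrank ℚ (Lf i) = {t : V | ∃ g : K ≃ₐ[ℚ] K, g • rp i = t}.ncard)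
    (β : (i : ι) → 𝓞 (Lf i)) (z : V → 𝓞 K) (hz : Eqv z)
    (hzb : ∀ i, (z (rp i) : K) = em i (β i : Lf i)) (N : ℤ) (hN : ∏ t, z t = (N : 𝓞 K)) :
    N.natAbs = ∏ i, Ideal.absNorm (Ideal.span {β i}) := by
  classical
  have hn : 0 < Module.finrank ℚ K := Module.finrank_pos
  choose m hm1 hm2 using fun i => norm_em (em i)
  -- the index of the orbit
  have hidx : ∀ t : V, ∃ i : ι, (∃ g : K ≃ₐ[ℚ] K, g • rp i = t) ∧
      ∀ i', (∃ g : K ≃ₐ[ℚ] K, g • rp i' = t) → i' = i := fun t => hRp.orb t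
  choose idx hidx1 hidx2 using hidx
  have h1 : (N : ℚ) ^ Module.finrank ℚ K = ∏ t, Algebra.norm ℚ (z t : K) := by
    rw [← map_prod, ← Algebra.norm_algebraMap (S := K) (N : ℚ)]
    congr 1
    have h2 : ((∏ t, z t : 𝓞 K) : K) = ∏ t, (z t : K) := map_prod (algebraMap (𝓞 K) K) _ _
    rw [← h2, hN]
    simp
  have h2 : ∀ t, Algebra.norm ℚ (z t : K) = Algebra.norm ℚ (β (idx t) : Lf (idx t)) ^ m (idx t) := by
    intro t
    obtain ⟨g, hg⟩ := hidx1 t
    have h3 : (z t : K) = g (z (rp (idx t)) : K) := by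
      rw [← hz g, hg]
    rw [h3, Algebra.norm_eq_of_algEquiv, hzb, hm2]
  have h3 : ∏ t, Algebra.norm ℚ (z t : K) =
      ∏ i, (Algebra.norm ℚ (β i : Lf i)) ^ Module.finrank ℚ K := by
    rw [← Finset.prod_fiberwise (s := Finset.univ) (g := idx)]
    refine Finset.prod_congr rfl fun i _ => ?_
    rw [Finset.prod_congr rfl (g := fun _ => Algebra.norm ℚ (β i : Lf i) ^ m i) (fun t ht => by
      rw [h2 t]
      have := (Finset.mem_filter.1 ht).2
      subst this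
      rfl), Finset.prod_const, ← pow_mul, ← hm1 i, hfin i]
    congr 2
    rw [Set.ncard_eq_toFinset_card']
    congr 1
    ext t
    rw [Finset.mem_filter, Set.mem_toFinset, Set.mem_ofPred_eq]
    constructor
    · rintro ⟨-, rfl⟩
      exact hidx1 t
    · intro h
      exact ⟨Finset.mem_univ _, (hidx2 t i h).symm⟩
  rw [h3, Finset.prod_pow] at h1
  have h4 : |(N : ℚ)| = |∏ i, Algebra.norm ℚ (β i : Lf i)| := by
    have h5 := congrArg abs h1
    rw [abs_pow, abs_pow] at h5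
    exact (pow_left_inj₀ (abs_nonneg _) (abs_nonneg _) hn.ne').1 h5
  rw [Finset.abs_prod] at h4
  have h5 : ∀ i, |Algebra.norm ℚ (β i : Lf i)| = ((Ideal.absNorm (Ideal.span {β i}) : ℕ) : ℚ) := by
    intro i
    rw [Ideal.absNorm_span_singleton, ← Algebra.coe_norm_int, Nat.cast_natAbs, Int.cast_abs]
  simp only [h5] at h4
  have h6 : ((N.natAbs : ℕ) : ℚ) = |(N : ℚ)| := by
    rw [Nat.cast_natAbs, Int.cast_abs]
  rw [← h6] at h4
  exact_mod_cast h4

omit [Fintype ι] in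
theorem stab [IsGalois ℚ K] (hRp : Rp Lf em rp) (i : ι) (h : K ≃ₐ[ℚ] K)
    (hh : ∀ y : Lf i, h (em i y) = em i y) : h • rp i = rp i := by
  have h1 : h ∈ IntermediateField.fixingSubgroup
      (IntermediateField.fixedField (MulAction.stabilizer (K ≃ₐ[ℚ] K) (rp i))) := by
    rw [IntermediateField.mem_fixingSubgroup_iff]
    intro x hx
    rw [IntermediateField.mem_fixedField_iff] at hx
    obtain ⟨y, rfl⟩ := (hRp.fix i x).1 (fun g hg => hx g hg)
    exact hh y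
  rw [IntermediateField.fixingSubgroup_fixedField] at h1
  exact h1

end norms

theorem nice_mono {L : Type} [Field L] [NumberField L] {K K' : ℝ} (hK : K ≤ K') {α : 𝓞 L}
    (h : Nice K α) : Nice K' α where
  ne := h.ne
  bal := fun σ => (h.bal σ).trans (mul_le_mul_of_nonneg_right hK (Nat.cast_nonneg _))
  om := h.om.trans (by linarith)

section main

variable {K : Type} [Field K] [NumberField K] [IsGalois ℚ K] {V : Type} [AddCommGroup V]
  [DistribMulAction (K ≃ₐ[ℚ] K) V] {ι : Type} {Lf : ι → Type} [∀ i, Field (Lf i)]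
  [∀ i, NumberField (Lf i)]
  {em : (i : ι) → Lf i →+* K} {rp : ι → V}

/-- the primes of `Lf i` attached to the types -/
def SZ (em : (i : ι) → Lf i →+* K) (rp : ι → V) (R : Finset ℕ)
    (τ : HeightOneSpectrum (𝓞 K) → V) (i : ι) : Set (HeightOneSpectrum (𝓞 (Lf i))) :=
  {v | ∃ l ∈ R, ∃ w : HeightOneSpectrum (𝓞 K), Abv w l ∧ τ w = rp i ∧ Blw (em i) v w}

theorem abv_blw {M : Type} [Field M] [NumberField M] {em : M →+* K} {l : ℕ}
    {v : HeightOneSpectrum (𝓞 M)} {w : HeightOneSpectrum (𝓞 K)} (h : Blw em v w) :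
    Abv v l ↔ Abv w l := by
  have h1 := h (l : 𝓞 M)
  rw [map_natCast] at h1
  exact h1

theorem blw_fix {M : Type} [Field M] [NumberField M] {em : M →+* K}
    {v : HeightOneSpectrum (𝓞 M)} {w w' : HeightOneSpectrum (𝓞 K)} (h : Blw em v w)
    (g : K ≃ₐ[ℚ] K) (hg : ∀ y : M, g (em y) = em y) (hm : Mv g w w') : Blw em v w' := by
  intro x
  rw [h x]
  refine hm _ _ ?_
  have h1 : ((RingOfIntegers.mapRingHom em x : 𝓞 K) : K) = em (x : M) := rfl
  rw [h1, hg]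

theorem sz_finite {R : Finset ℕ} (hR : ∀ l ∈ R, l.Prime) (τ : HeightOneSpectrum (𝓞 K) → V) (i : ι) :
    (SZ em rp R τ i).Finite := by
  have h1 : (⋃ l ∈ R, {v : HeightOneSpectrum (𝓞 (Lf i)) | Abv v l}).Finite :=
    Set.Finite.biUnion R.finite_toSet (fun l hl => finite_abv (hR l hl).ne_zero)
  refine h1.subset ?_
  rintro v ⟨l, hl, w, hw, -, hv⟩
  exact Set.mem_biUnion hl ((abv_blw hv).2 hw)

theorem sz_norm (hRp : Rp Lf em rp) {l : ℕ} (hl : l.Prime) {τ : HeightOneSpectrum (𝓞 K) → V}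
    (hτ : ∀ (w w' : HeightOneSpectrum (𝓞 K)) (g : K ≃ₐ[ℚ] K), Abv w l → Mv g w w' →
      τ w' = g • τ w)
    {i : ι} {w : HeightOneSpectrum (𝓞 K)} (hw : Abv w l) (hwi : τ w = rp i)
    {F : K ≃ₐ[ℚ] K} (hF : Fb w l F) {v : HeightOneSpectrum (𝓞 (Lf i))} (hv : Blw (em i) v w) :
    Ideal.absNorm v.asIdeal = l := by
  have h1 : Mv F w w := fb_mv hl.ne_zero hF
  have h2 : F • rp i = rp i := by
    rw [← hwi]
    exact (hτ w w F hw h1).symm
  refine absNorm_eq hl ((abv_blw hv).2 hw) fun x => ?_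
  rw [hv, map_sub, map_pow]
  refine hF _ _ ?_
  exact ((hRp.fix i (em i x)).2 ⟨x, rfl⟩ F h2).symm

theorem sz_eq (hRp : Rp Lf em rp) {l : ℕ} (hl : l.Prime) {τ : HeightOneSpectrum (𝓞 K) → V}
    (hτ : ∀ (w w' : HeightOneSpectrum (𝓞 K)) (g : K ≃ₐ[ℚ] K), Abv w l → Mv g w w' →
      τ w' = g • τ w)
    {i : ι} {w w' : HeightOneSpectrum (𝓞 K)} (hw : Abv w l) (hw' : Abv w' l) (hwi : τ w = rp i)
    (hwi' : τ w' = rp i)
    {v v' : HeightOneSpectrum (𝓞 (Lf i))} (hv : Blw (em i) v w) (hv' : Blw (em i) v' w') :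
    v = v' := by
  obtain ⟨g, hg⟩ := trans_nat hl hw hw'
  have h1 : g • rp i = rp i := by
    have h2 := hτ w w' g hw hg
    rw [hwi, hwi'] at h2
    exact h2.symm
  exact blw_unique (em i) (blw_fix hv g (fun y => (hRp.fix i (em i y)).2 ⟨y, rfl⟩ g h1) hg) hv'

theorem sz_mem (hRp : Rp Lf em rp) {R : Finset ℕ} (hR : ∀ l ∈ R, l.Prime)
    {τ : HeightOneSpectrum (𝓞 K) → V}
    (hτ : ∀ l ∈ R, ∀ (w w' : HeightOneSpectrum (𝓞 K)) (g : K ≃ₐ[ℚ] K), Abv w l → Mv g w w' →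
      τ w' = g • τ w)
    {l : ℕ} (hl : l.Prime) {i : ι} {w w0 : HeightOneSpectrum (𝓞 K)} (hw : Abv w l)
    {g : K ≃ₐ[ℚ] K} (hm : Mv g w0 w) {v : HeightOneSpectrum (𝓞 (Lf i))} (hv : Blw (em i) v w0) :
    v ∈ SZ em rp R τ i ↔ (l ∈ R ∧ τ w = g • rp i) := by
  have hw0 : Abv w0 l := (abv_mv hm).2 hw
  constructor
  · rintro ⟨l', hl', w'', hw'', hτ'', hv''⟩
    have h1 : l' = l := by
      have h2 : Abv v l := (abv_blw hv).2 hw0
      have h3 : Abv v l' := (abv_blw hv'').2 hw''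
      have h4 : (l' : ℤ) ∣ (l : ℤ) := (nat_mem (hR l' hl') h3 (l : ℤ)).1 (by
        rw [Int.cast_natCast]
        exact h2)
      exact (Nat.prime_dvd_prime_iff_eq (hR l' hl') hl).1 (by exact_mod_cast h4)
    subst h1
    refine ⟨hl', ?_⟩
    obtain ⟨h, hh1, hh2⟩ := trans_over (em i) w'' w0 (fun x => by rw [← hv'' x, ← hv x])
    have h5 : τ w0 = rp i := by
      rw [hτ l' hl' w'' w0 h hw'' hh2, hτ'']
      exact stab hRp i h hh1
    rw [hτ l' hl' w0 w g hw0 hm, h5]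
  · rintro ⟨hlR, h1⟩
    refine ⟨l, hlR, w0, hw0, ?_, hv⟩
    rw [hτ l hlR w0 w g hw0 hm] at h1
    exact smul_left_cancel g h1

end main

theorem zex : S_GEN → S_EVX → S_FRX → S_ZEX := by
  intro hGEN hEVX hFRX K _ _ _ V _ _ _ ι _ Lf _ _ em rp hRp
  classical
  obtain ⟨⟨ev, hev⟩, hfin⟩ := hEVX K V ι Lf em rp hRp
  obtain ⟨B, hB0, hB⟩ := hFRX K
  choose B0 C K0 hB1 hC hgen using fun i => hGEN (Lf i)
  refine ⟨B * ∏ i, B0 i, ∏ i, C i, ∑ i, |K0 i|,
    mul_ne_zero hB0 (Finset.prod_ne_zero_iff.2 fun i _ => hB1 i), Finset.prod_pos fun i _ => hC i, ?_⟩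
  intro R τ hR hτ
  have hdB : ∀ l : ℕ, ¬ l ∣ B * ∏ i, B0 i → ¬ l ∣ B := fun l h h' => h (Dvd.dvd.mul_right h' _)
  have hdB0 : ∀ (l : ℕ) (i : ι), ¬ l ∣ B * ∏ i, B0 i → ¬ l ∣ B0 i := fun l i h h' =>
    h (Dvd.dvd.mul_left (h'.trans (Finset.dvd_prod_of_mem B0 (Finset.mem_univ i))) _)
  have hRp' : ∀ l ∈ R, l.Prime := fun l hl => (hR l hl).1
  have hfS : ∀ i, (SZ em rp R τ i).Finite := fun i => sz_finite hRp' τ i
  -- the data of an element
  have hnorm : ∀ i, ∀ v ∈ (hfS i).toFinset, ∃ l ∈ R, Ideal.absNorm v.asIdeal = l ∧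
      ∃ w : HeightOneSpectrum (𝓞 K), Abv w l ∧ τ w = rp i ∧ Blw (em i) v w := by
    intro i v hv
    obtain ⟨l, hl, w, hw, hwi, hvw⟩ := (Set.Finite.mem_toFinset _).1 hv
    obtain ⟨F, hF⟩ := ((hB l (hR l hl).1 (hdB l (hR l hl).2)).2.2 w hw).1
    exact ⟨l, hl, sz_norm hRp (hR l hl).1 (hτ l hl) hw hwi hF hvw, w, hw, hwi, hvw⟩
  have hnot : ∀ (i : ι) (l : ℕ) (v : HeightOneSpectrum (𝓞 (Lf i))), l.Prime →
      ¬ l ∣ B * ∏ i, B0 i → Abv v l → (B0 i : 𝓞 (Lf i)) ∉ v.asIdeal := by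
    intro i l v hl hlB hv h
    have h1 : (l : ℤ) ∣ (B0 i : ℤ) := (nat_mem hl hv (B0 i : ℤ)).1 (by
      rw [Int.cast_natCast]
      exact h)
    exact hdB0 l i hlB (by exact_mod_cast h1)
  have hex : ∀ i, ∃ β : 𝓞 (Lf i), β ≠ 0 ∧ (∀ v : HeightOneSpectrum (𝓞 (Lf i)),
        (B0 i : 𝓞 (Lf i)) ∉ v.asIdeal →
        (v ∈ (hfS i).toFinset → v.valuation (Lf i) (β : Lf i) = WithZero.exp (-1 : ℤ)) ∧
        (v ∉ (hfS i).toFinset → v.valuation (Lf i) (β : Lf i) = 1)) ∧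
      ((Ideal.absNorm (Ideal.span {β}) : ℕ) : ℝ) ≤
        C i * ∏ v ∈ (hfS i).toFinset, ((Ideal.absNorm v.asIdeal : ℕ) : ℝ) ∧
      Nice (K0 i) β := by
    intro i
    refine hgen i (hfS i).toFinset ?_ ?_
    · intro v hv
      obtain ⟨l, hl, hvl, w, hw, hwi, hvw⟩ := hnorm i v hv
      refine ⟨hnot i l v (hR l hl).1 (hR l hl).2 ((abv_blw hvw).2 hw), ?_⟩
      rw [hvl]
      exact (hR l hl).1
    · intro v hv v' hv' hvv
      obtain ⟨l, hl, hvl, w, hw, hwi, hvw⟩ := hnorm i v hv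
      obtain ⟨l', hl', hvl', w', hw', hwi', hvw'⟩ := hnorm i v' hv'
      rw [hvl, hvl'] at hvv
      subst hvv
      exact sz_eq hRp (hR l hl).1 (hτ l hl) hw hw' hwi hwi' hvw hvw'
  choose β hβ0 hβv hβn hβN using hex
  have hz : Eqv (ev β) := hev.eqv β
  have hzb : ∀ i, ((ev β (rp i) : 𝓞 K) : K) = em i (β i : Lf i) := fun i => hev.val β i
  have hzt : ∀ (i : ι) (g : K ≃ₐ[ℚ] K), ((ev β (g • rp i) : 𝓞 K) : K) = g (em i (β i : Lf i)) := by
    intro i g
    rw [hz g (rp i), hzb]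
  refine ⟨ev β, hz, ?_, ?_, ?_, ?_⟩
  · intro t h0
    obtain ⟨i, ⟨g, hg⟩, -⟩ := hRp.orb t
    have h1 := hzt i g
    rw [hg, h0] at h1
    have h2 : em i (β i : Lf i) = 0 := by
      apply g.injective
      rw [← h1]
      simp
    have h3 : (β i : Lf i) = 0 := (map_eq_zero (em i)).1 h2
    exact hβ0 i (RingOfIntegers.ext (by rw [h3]; rfl))
  · intro i
    refine ⟨β i, (hzb i).symm, nice_mono ?_ (hβN i)⟩
    exact (le_abs_self _).trans
      (Finset.single_le_sum (f := fun i => |K0 i|) (fun j _ => abs_nonneg _) (Finset.mem_univ i))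
  · intro l hl hlB w hw t
    obtain ⟨i, ⟨g, hg⟩, -⟩ := hRp.orb t
    obtain ⟨w0, hw0⟩ := exists_mv hl.ne_zero hw g
    have hw0l : Abv w0 l := (abv_mv hw0).2 hw
    obtain ⟨v, hv⟩ := exists_blw (em i) w0 l hl.ne_zero hw0l
    have hsq := (hB l hl (hdB l hlB)).1
    have h1 : w.valuation K ((ev β t : 𝓞 K) : K) = v.valuation (Lf i) (β i : Lf i) := by
      rw [← hg, hzt, val_mv hl.ne_zero hsq hw g hw0, val_blw (em i) hl.ne_zero hsq hw0l hv]
    have h2 := hβv i v (hnot i l v hl hlB ((abv_blw hv).2 hw0l))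
    have h3 : v ∈ (hfS i).toFinset ↔ (l ∈ R ∧ τ w = t) := by
      rw [Set.Finite.mem_toFinset, sz_mem hRp hRp' hτ hl hw hw0 hv, hg]
    rw [h1, ← h3]
    exact h2
  · obtain ⟨N, hN⟩ := prod_inv (ev β) hz
    refine ⟨N, hN, ?_⟩
    have h1 := prod_norm hRp hfin β (ev β) hz hzb N hN
    have h2 : |(N : ℝ)| = ∏ i, ((Ideal.absNorm (Ideal.span {β i}) : ℕ) : ℝ) := by
      have h3 : ((N.natAbs : ℕ) : ℝ) = |(N : ℝ)| := by
        rw [Nat.cast_natAbs, Int.cast_abs]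
      rw [← h3, h1]
      push_cast
      rfl
    have h4 : ∏ i, ∏ v ∈ (hfS i).toFinset, Ideal.absNorm v.asIdeal ≤ ∏ l ∈ R, l := by
      rw [Finset.prod_sigma']
      have hinj : Set.InjOn (fun x : (i : ι) × HeightOneSpectrum (𝓞 (Lf i)) =>
          Ideal.absNorm x.2.asIdeal) (Finset.univ.sigma fun i => (hfS i).toFinset : Finset _) := by
        rintro ⟨i, v⟩ hx ⟨j, v'⟩ hy hxy
        have hx' : v ∈ (hfS i).toFinset := (Finset.mem_sigma.1 hx).2
        have hy' : v' ∈ (hfS j).toFinset := (Finset.mem_sigma.1 hy).2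
        obtain ⟨l, hl, hvl, w, hw, hwi, hvw⟩ := hnorm i v hx'
        obtain ⟨l', hl', hvl', w', hw', hwi', hvw'⟩ := hnorm j v' hy'
        have hxy' : Ideal.absNorm v.asIdeal = Ideal.absNorm v'.asIdeal := hxy
        rw [hvl, hvl'] at hxy'
        subst hxy'
        have hij : i = j := by
          obtain ⟨g, hg⟩ := trans_nat (hR l hl).1 hw hw'
          have h5 := hτ l hl w w' g hw hg
          rw [hwi, hwi'] at h5
          exact (hRp.orb (rp j)).unique ⟨g, h5.symm⟩ ⟨1, one_smul _ _⟩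
        subst hij
        have := sz_eq hRp (hR l hl).1 (hτ l hl) hw hw' hwi hwi' hvw hvw'
        rw [this]
      have h5 := Finset.prod_image (f := fun l : ℕ => l) hinj
      rw [← h5]
      refine Nat.le_of_dvd (Finset.prod_pos fun l hl => (hR l hl).1.pos)
        (Finset.prod_dvd_prod_of_subset _ _ _ ?_)
      intro l hl
      obtain ⟨⟨i, v⟩, hx, hxl⟩ := Finset.mem_image.1 hl
      obtain ⟨l', hl', hvl, -⟩ := hnorm i v (Finset.mem_sigma.1 hx).2
      have : l = l' := by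
        rw [← hxl, ← hvl]
      rw [this]
      exact hl'
    rw [h2]
    calc ∏ i, ((Ideal.absNorm (Ideal.span {β i}) : ℕ) : ℝ)
        ≤ ∏ i, (C i * ∏ v ∈ (hfS i).toFinset, ((Ideal.absNorm v.asIdeal : ℕ) : ℝ)) :=
          Finset.prod_le_prod (fun i _ => Nat.cast_nonneg _) (fun i _ => hβn i)
      _ = (∏ i, C i) * ((∏ i, ∏ v ∈ (hfS i).toFinset, Ideal.absNorm v.asIdeal : ℕ) : ℝ) := by
          rw [Finset.prod_mul_distrib]
          push_cast
          rfl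
      _ ≤ (∏ i, C i) * ((∏ l ∈ R, l : ℕ) : ℝ) :=
          mul_le_mul_of_nonneg_left (by exact_mod_cast h4) (Finset.prod_nonneg fun i _ => (hC i).le)
      _ = (∏ i, C i) * ∏ l ∈ R, (l : ℝ) := by
          push_cast
          rfl

end Pool.Agent.Q149.ESM
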